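import Pool.Agent.Lib.MP_d70044_ag.DH.Block

/-!
# The degrees of the equations of secant varieties of Segre varieties with three factors

Part (A): for all formats `m1 × m2 × m3` and all `r`, a nonzero polynomial of degree `d` vanishing
on the `r`-th secant variety satisfies `d > m3 x² + (m1 + m2 + 1) x` for every real `x ≥ 1` with
`2 m3 x + (m1 + m2 + 1)(1 + log x) < r` (theorem `result`).

Part (B) (theorem `block`): for every `k ≥ 4` there are `n, p ≤ k` such that there are nonzero
equations of the `k`-th secant variety in the format `n × n × p` and all of them have degree at least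
`k² / (128 (1 + log k))`.  For `k = r` and `m1, m2, m3 ≤ k` the equations in the format
`m1 × m2 × m3` are the elements of the ideal of `Sec_k(X_k)`,
`X_k = ℙ^{k-1} × ℙ^{k-1} × ℙ^{k-1}`, in which only the variables `x_{ijl}` with
`i ≤ m1`, `j ≤ m2`, `l ≤ m3` occur.

Idea of the proof of (A).  Let `f ≠ 0` be homogeneous of degree `d` and vanish on the
`(k+1)`-th secant variety.  Expand `f (w + ∑ a ⊗ b ⊗ c)` in the rank one tensors; for a fixed
`c = e_l` let `F (w; a, b)` be the part of the highest degree `m` in `a ⊗ b`; it vanishes for `w` in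
the `k`-th secant variety and has degree `d - m` in `w`.  For the Bombieri (Fischer) inner product
the operators `Θ_l = ∑ a_i b_j ∂ / ∂ w_ijl` satisfy
`∑_l ‖Θ_l F‖² ≥ (d - m - (m1 + m2) m - m3 m²) ‖F‖²`; so `F` can be replaced by a nonzero `Θ_l F`,
of larger degree in `a ⊗ b`, as long as the right hand side is positive.  Hence the drop of the
degree from `k + 1` to `k` is at least of order `min (d / (m1 + m2), √(d / m3))`, and (A) follows by
induction.  For (B) apply (A) to the format `n × n × p` with `p ≈ 8 (1 + log k)`, `n ≈ 2 k / p`,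
in which the secant variety does not fill the space by a dimension count.
-/

namespace Pool.Agent.Results.MP_d70044_ag.DegreeGrowth

open MvPolynomial

/-- The polynomial ring `ℂ[x_{ijl}]` in the coordinates of `ℂ^m1 ⊗ ℂ^m2 ⊗ ℂ^m3`. -/
abbrev Poly (m1 m2 m3 : ℕ) : Type := MvPolynomial (Fin m1 × Fin m2 × Fin m3) ℂ

/-- The tensor `∑_{i < r} a_i ⊗ b_i ⊗ c_i`. -/
def tensor {m1 m2 m3 r : ℕ} (a : Fin r → Fin m1 → ℂ) (b : Fin r → Fin m2 → ℂ)
    (c : Fin r → Fin m3 → ℂ) : Fin m1 × Fin m2 × Fin m3 → ℂ :=
  fun p => ∑ i, a i p.1 * b i p.2.1 * c i p.2.2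

/-- `f` vanishes on all tensors of rank at most `r`, that is, on the `r`-th secant variety of the
Segre variety. -/
def VanishesOnSec {m1 m2 m3 : ℕ} (r : ℕ) (f : Poly m1 m2 m3) : Prop :=
  ∀ (a : Fin r → Fin m1 → ℂ) (b : Fin r → Fin m2 → ℂ) (c : Fin r → Fin m3 → ℂ),
    eval (tensor a b c) f = 0

/-- All formats: every equation of the `r`-th secant variety has large degree. -/
theorem result (m1 m2 m3 r : ℕ) (f : Poly m1 m2 m3) (hf : f ≠ 0) (hv : VanishesOnSec r f) (x : ℝ)
    (hx : 1 ≤ x) (hlt : 2 * m3 * x + (m1 + m2 + 1) * (1 + Real.log x) < r) :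
    m3 * x ^ 2 + (m1 + m2 + 1) * x < (f.totalDegree : ℝ) := by
  have h := DH.cx_bound (k := r) hf hv
  by_contra hcon
  push Not at hcon
  have h1 := h.1 x hx hcon
  unfold DH.hh at h1
  linarith

/-- There are formats in which the minimal degree grows nearly quadratically. -/
theorem block (k : ℕ) (hk : 4 ≤ k) : ∃ n p : ℕ, n ≤ k ∧ p ≤ k ∧
    (∃ F : Poly n n p, F ≠ 0 ∧ VanishesOnSec k F) ∧
    ∀ f : Poly n n p, f ≠ 0 → VanishesOnSec k f →
      (k : ℝ) ^ 2 ≤ 128 * (1 + Real.log k) * f.totalDegree :=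
  DH.block hk

end Pool.Agent.Results.MP_d70044_ag.DegreeGrowth
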