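import Pool.Agent.Lib.MP_d70044_ag.EX.Final
import Pool.Agent.Lib.MP_d70044_ag.EX.Grow

/-!
# The secant varieties `Sec_k(X_k)` are not defined by equations of subexponential degree in `√k`

`X_k = ℙ^{k-1} × ℙ^{k-1} × ℙ^{k-1}`, `n = ⌊√k⌋`.  Every set of polynomials which cuts out
`Sec_k(X_k)` as a set, in particular every set of generators of its ideal, contains a polynomial of
degree at least `binom(2n-2, n-1)`.

Idea of the proof (for `k = n²`).  Identify `ℂ^{n+1}` with the polynomials of degree `≤ n` and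
choose `2n` nodes `x_1, …, x_n, z_1, …, z_n`.  For an `n`-element set `S` of nodes let
`u_S = ∏_{s ∈ S} (X - s) ∏_{s ∉ S} (Y - s)`, a matrix of rank one.  All `u_S` lie in the space
`U` of the bihomogeneous forms vanishing at the diagonal points of the nodes, `dim U = n² + 1`, with
basis `u_0 = u_{x}` and `u_ij` (`x_i` replaced by `z_j`).  For `I, J` of the same size `h`
`u_{I,J} = (1 - h) u_0 + ∑_{i ∈ I, j ∈ J} c_ij u_ij` with an explicit `c_ij` (Lagrange
interpolation).  Hence on the line of tensors `T_t = ∑ u_ij ⊗ e_ij + t u_0 ⊗ e_11` the rank is at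
most `k` for all `t = (1 - h) / c_11(I, J)`, and for suitable nodes these are
`binom(2n-2, n-1)` different numbers.  The line is not contained in `Sec_k`: for other `t` the
slices of `T_t` span a space containing only `k - 1` matrices of rank one, and this is detected by
a minor of a large matrix `Φ` (multiplication of the bilinear forms orthogonal to the slices by
forms of degree `n`, a matrix of the type used for the resultant of bilinear forms), all of whose
minors of this size vanish on `Sec_k`.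
-/

namespace Pool.Agent.Results.MP_d70044_ag.ExpDegree

open MvPolynomial

/-- The polynomial ring `ℂ[x_{ijl}]` in the coordinates of `ℂ^k ⊗ ℂ^k ⊗ ℂ^k`. -/
abbrev Poly (k : ℕ) : Type := MvPolynomial (Fin k × Fin k × Fin k) ℂ

/-- The tensor `∑_{r < k} a_r ⊗ b_r ⊗ c_r`. -/
def tensor {k : ℕ} (a b c : Fin k → Fin k → ℂ) : Fin k × Fin k × Fin k → ℂ :=
  fun p => ∑ r, a r p.1 * b r p.2.1 * c r p.2.2

/-- `f` vanishes on all tensors of rank at most `k`, that is, `f ∈ I(Sec_k(X_k))`. -/
def VanishesOnSec {k : ℕ} (f : Poly k) : Prop :=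
  ∀ a b c : Fin k → Fin k → ℂ, eval (tensor a b c) f = 0

/-- `S` consists of polynomials vanishing on `Sec_k(X_k)`, and every common zero of `S` is a point
of `Sec_k(X_k)`, that is, a zero of all polynomials vanishing on `Sec_k(X_k)`. -/
def CutsOut {k : ℕ} (S : Set (Poly k)) : Prop :=
  (∀ g ∈ S, VanishesOnSec g) ∧ ∀ T : Fin k × Fin k × Fin k → ℂ, (∀ g ∈ S, eval T g = 0) →
    ∀ f : Poly k, VanishesOnSec f → eval T f = 0

theorem cuts_of_gen {k : ℕ} {S : Set (Poly k)}
    (hS : ∀ f : Poly k, f ∈ Ideal.span S ↔ VanishesOnSec f) : CutsOut S := by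
  refine ⟨fun g hg => (hS g).1 (Ideal.subset_span hg), fun T hT f hf => ?_⟩
  have h1 : Ideal.span S ≤ RingHom.ker (eval T) := by
    rw [Ideal.span_le]
    intro g hg
    rw [SetLike.mem_coe, RingHom.mem_ker]
    exact hT g hg
  exact h1 ((hS f).2 hf)

/-- Every set of equations which cuts out `Sec_k(X_k)` as a set contains a polynomial of degree at
least `binom(2n-2, n-1)`, `n = ⌊√k⌋`. -/
theorem result (k : ℕ) (hk : 4 ≤ k) (S : Set (Poly k)) (hS : CutsOut S) :
    ∃ g ∈ S, Nat.choose (2 * (Nat.sqrt k - 1)) (Nat.sqrt k - 1) ≤ g.totalDegree := by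
  obtain ⟨T, ⟨F, hF, hFT⟩, hT⟩ := EX.exp_tensor hk
  by_contra hcon
  push Not at hcon
  refine hFT (hS.2 T (fun g hg => hT g (hS.1 g hg) ?_) F hF)
  exact hcon g hg

/-- the same for every set of generators of the ideal `I(Sec_k(X_k))` -/
theorem generators (k : ℕ) (hk : 4 ≤ k) (S : Set (Poly k))
    (hS : ∀ f : Poly k, f ∈ Ideal.span S ↔ VanishesOnSec f) :
    ∃ g ∈ S, Nat.choose (2 * (Nat.sqrt k - 1)) (Nat.sqrt k - 1) ≤ g.totalDegree :=
  result k hk S (cuts_of_gen hS)

/-- the lower bound is exponential in `√k` -/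
theorem four_pow_le (k : ℕ) (hk : 4 ≤ k) : 4 ^ (Nat.sqrt k - 1) ≤
    2 * (Nat.sqrt k - 1) * Nat.choose (2 * (Nat.sqrt k - 1)) (Nat.sqrt k - 1) := by
  have h1 : 2 ≤ Nat.sqrt k := by
    rw [Nat.le_sqrt]
    exact hk
  exact Nat.four_pow_le_two_mul_self_mul_centralBinom _ (by omega)

/-- no polynomial degree bound suffices -/
theorem no_poly_bound (d : ℕ) : ∃ K : ℕ, ∀ (k : ℕ) (S : Set (Poly k)), K ≤ k → CutsOut S →
    ∃ g ∈ S, k ^ d < g.totalDegree := by
  obtain ⟨K, hK4, hK⟩ := EX.grow d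
  refine ⟨K, fun k S hk hS => ?_⟩
  obtain ⟨g, hg, hg2⟩ := result k (hK4.trans hk) S hS
  exact ⟨g, hg, lt_of_lt_of_le (hK k hk) hg2⟩

end Pool.Agent.Results.MP_d70044_ag.ExpDegree
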