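import Pool.Agent.Lib.MP_d70044_ag.L.Final2

/-!
# The ideal of the secant varieties of Segre varieties with three factors in the lowest degree

For all `r` and all formats `m1 × m2 × m3` we determine all equations of degree `≤ r + 1` of the
`r`-th secant variety of `ℙ^{m1-1} × ℙ^{m2-1} × ℙ^{m3-1}`: there are none in degree `≤ r`, and in
degree `r + 1` they are spanned by the minors of the flattenings and by explicit polynomials
`hookEq a b p`.  For `r = k = m1 = m2 = m3` only the polynomials `hookEq a b p` remain.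
-/

namespace Pool.Agent.Results.MP_d70044_ag.LowestDegree

open MvPolynomial Equiv

section defs
variable {m1 m2 m3 : ℕ}

/-- The polynomial ring `ℂ[x_{ijl}]` in the coordinates of `ℂ^m1 ⊗ ℂ^m2 ⊗ ℂ^m3`. -/
abbrev Poly (m1 m2 m3 : ℕ) : Type := MvPolynomial (Fin m1 × Fin m2 × Fin m3) ℂ

/-- The tensor `∑_{i < r} a_i ⊗ b_i ⊗ c_i`. -/
def tensor {r : ℕ} (a : Fin r → Fin m1 → ℂ) (b : Fin r → Fin m2 → ℂ) (c : Fin r → Fin m3 → ℂ) :
    Fin m1 × Fin m2 × Fin m3 → ℂ := fun p => ∑ i, a i p.1 * b i p.2.1 * c i p.2.2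

/-- `f` vanishes on all tensors of rank at most `r`, that is, on the `r`-th secant variety of the
Segre variety. -/
def VanishesOnSec (r : ℕ) (f : Poly m1 m2 m3) : Prop :=
  ∀ (a : Fin r → Fin m1 → ℂ) (b : Fin r → Fin m2 → ℂ) (c : Fin r → Fin m3 → ℂ),
    eval (tensor a b c) f = 0

/-- The minor of the flattening `ℂ^m1 × (ℂ^m2 ⊗ ℂ^m3)` with rows `i_t` and columns `(j_u, l_u)`,
where `p t = (i_t, j_t, l_t)`. -/
noncomputable def minor1 {d : ℕ} (p : Fin d → Fin m1 × Fin m2 × Fin m3) : Poly m1 m2 m3 :=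
  Matrix.det (Matrix.of fun t u => X ((p t).1, (p u).2.1, (p u).2.2))

/-- The minor of the flattening `ℂ^m2 × (ℂ^m1 ⊗ ℂ^m3)` with rows `j_t`, columns `(i_u, l_u)`. -/
noncomputable def minor2 {d : ℕ} (p : Fin d → Fin m1 × Fin m2 × Fin m3) : Poly m1 m2 m3 :=
  Matrix.det (Matrix.of fun t u => X ((p u).1, (p t).2.1, (p u).2.2))

/-- The minor of the flattening `ℂ^m3 × (ℂ^m1 ⊗ ℂ^m2)` with rows `l_t`, columns `(i_u, j_u)`. -/
noncomputable def minor3 {d : ℕ} (p : Fin d → Fin m1 × Fin m2 × Fin m3) : Poly m1 m2 m3 :=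
  Matrix.det (Matrix.of fun t u => X ((p u).1, (p u).2.1, (p t).2.2))

/-- For `p t = (i_t, j_t, l_t)`, `0 ≤ t < d`, the polynomial
`∑ sgn σ sgn τ sgn π ∏_t x_{i_{σ t}, j_{τ t}, l_{π t}}`, the sum over all permutations `σ, τ, π` of
the positions `0, …, d - 1` such that `σ` fixes the positions `0, …, a`, `τ` fixes the positions
`a + 1, …, a + b` and `π` fixes the positions `a + b + 1, …, d - 1`. -/
noncomputable def hookEq {d : ℕ} (a b : ℕ) (p : Fin d → Fin m1 × Fin m2 × Fin m3) :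
    Poly m1 m2 m3 :=
  ∑ σ : Perm (Fin d), ∑ τ : Perm (Fin d), ∑ π : Perm (Fin d),
    if (∀ t : Fin d, (t : ℕ) ≤ a → σ t = t) ∧
      (∀ t : Fin d, a < (t : ℕ) ∧ (t : ℕ) ≤ a + b → τ t = t) ∧
      (∀ t : Fin d, a + b < (t : ℕ) → π t = t) then
      (((Perm.sign σ : ℤˣ) : ℤ) * ((Perm.sign τ : ℤˣ) : ℤ) * ((Perm.sign π : ℤˣ) : ℤ)) •
        ∏ t, X ((p (σ t)).1, (p (τ t)).2.1, (p (π t)).2.2)
    else 0

end defs

section proofs
variable {m1 m2 m3 : ℕ}

open SecLow

theorem minor1_eq {d : ℕ} (p : Fin d → Fin m1 × Fin m2 × Fin m3) :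
    minor1 p = minorPoly 0 p := by
  unfold minor1 minorPoly
  rw [Matrix.det_apply]
  refine Finset.sum_congr rfl fun σ _ => ?_
  rfl

theorem minor2_eq {d : ℕ} (p : Fin d → Fin m1 × Fin m2 × Fin m3) :
    minor2 p = minorPoly 1 p := by
  unfold minor2 minorPoly
  rw [Matrix.det_apply]
  refine Finset.sum_congr rfl fun σ _ => ?_
  rfl

theorem minor3_eq {d : ℕ} (p : Fin d → Fin m1 × Fin m2 × Fin m3) :
    minor3 p = minorPoly 2 p := by
  unfold minor3 minorPoly
  rw [Matrix.det_apply]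
  refine Finset.sum_congr rfl fun σ _ => ?_
  rfl

theorem hookEq_eq {r : ℕ} (a b : ℕ) (p : Fin (r + 1) → Fin m1 × Fin m2 × Fin m3) :
    hookEq a b p = hookPoly (col a b) p := by
  classical
  unfold hookEq hookPoly
  rw [← Equiv.sum_comp (fin3 (Perm (Fin (r + 1)))).symm, Fintype.sum_prod_type]
  refine Finset.sum_congr rfl fun σ _ => ?_
  rw [Fintype.sum_prod_type]
  refine Finset.sum_congr rfl fun τ _ => Finset.sum_congr rfl fun π _ => ?_
  have e0 : (fin3 (Perm (Fin (r + 1)))).symm (σ, τ, π) 0 = σ := rfl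
  have e1 : (fin3 (Perm (Fin (r + 1)))).symm (σ, τ, π) 1 = τ := rfl
  have e2 : (fin3 (Perm (Fin (r + 1)))).symm (σ, τ, π) 2 = π := rfl
  have c0 : ∀ t : Fin (r + 1), col a b t = 0 ↔ (t : ℕ) ≤ a := by
    intro t; unfold col; split_ifs <;> simp_all
  have c1 : ∀ t : Fin (r + 1), col a b t = 1 ↔ a < (t : ℕ) ∧ (t : ℕ) ≤ a + b := by
    intro t; unfold col; split_ifs <;> simp_all
  have c2 : ∀ t : Fin (r + 1), col a b t = 2 ↔ a + b < (t : ℕ) := by
    intro t; unfold col; split_ifs <;> simp_all <;> omega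
  have hiff : ((∀ t : Fin (r + 1), (t : ℕ) ≤ a → σ t = t) ∧
      (∀ t : Fin (r + 1), a < (t : ℕ) ∧ (t : ℕ) ≤ a + b → τ t = t) ∧
      (∀ t : Fin (r + 1), a + b < (t : ℕ) → π t = t)) ↔
      ∀ X t, col a b t = X → (fin3 (Perm (Fin (r + 1)))).symm (σ, τ, π) X t = t := by
    constructor
    · rintro ⟨h0, h1, h2⟩ X t hX
      fin_cases X
      · exact h0 t ((c0 t).mp hX)
      · exact h1 t ((c1 t).mp hX)
      · exact h2 t ((c2 t).mp hX)
    · intro h
      exact ⟨fun t ht => h 0 t ((c0 t).mpr ht), fun t ht => h 1 t ((c1 t).mpr ht),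
        fun t ht => h 2 t ((c2 t).mpr ht)⟩
  by_cases h : (∀ t : Fin (r + 1), (t : ℕ) ≤ a → σ t = t) ∧
      (∀ t : Fin (r + 1), a < (t : ℕ) ∧ (t : ℕ) ≤ a + b → τ t = t) ∧
      (∀ t : Fin (r + 1), a + b < (t : ℕ) → π t = t)
  · rw [if_pos h, if_pos (hiff.mp h), Fin.prod_univ_three, e0, e1, e2]
    rfl
  · rw [if_neg h, if_neg (fun h' => h (hiff.mpr h'))]

end proofs

/-- **All equations of degree `≤ r + 1` of the `r`-th secant variety**, for all `r` and all
formats `m1 × m2 × m3`. -/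
theorem result :
    -- there are no equations of degree `≤ r`
    (∀ (r m1 m2 m3 d : ℕ), d ≤ r → ∀ f : Poly m1 m2 m3, f.IsHomogeneous d →
      VanishesOnSec r f → f = 0) ∧
    -- all equations of degree `r + 1`
    (∀ (r m1 m2 m3 : ℕ) (f : Poly m1 m2 m3), f.IsHomogeneous (r + 1) →
      (VanishesOnSec r f ↔ f ∈ Submodule.span ℂ
        ({g | ∃ p : Fin (r + 1) → Fin m1 × Fin m2 × Fin m3,
            g = minor1 p ∨ g = minor2 p ∨ g = minor3 p} ∪
          {g | ∃ (a b : ℕ) (p : Fin (r + 1) → Fin m1 × Fin m2 × Fin m3),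
            1 ≤ a ∧ 1 ≤ b ∧ a + b < r ∧ g = hookEq a b p}))) := by
  refine ⟨fun r m1 m2 m3 d hd f hf hV => SecLow.low_zero r m1 m2 m3 d hd f hf hV, ?_⟩
  intro r m1 m2 m3 f hf
  have hset : ({g | ∃ p : Fin (r + 1) → Fin m1 × Fin m2 × Fin m3,
          g = minor1 p ∨ g = minor2 p ∨ g = minor3 p} ∪
        {g | ∃ (a b : ℕ) (p : Fin (r + 1) → Fin m1 × Fin m2 × Fin m3),
          1 ≤ a ∧ 1 ≤ b ∧ a + b < r ∧ g = hookEq a b p} : Set (Poly m1 m2 m3)) =
      SecLow.gens r m1 m2 m3 := by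
    ext g
    constructor
    · rintro (⟨p, h | h | h⟩ | ⟨a, b, p, h1, h2, h3, h⟩)
      · exact Or.inl ⟨0, p, by rw [h, minor1_eq]⟩
      · exact Or.inl ⟨1, p, by rw [h, minor2_eq]⟩
      · exact Or.inl ⟨2, p, by rw [h, minor3_eq]⟩
      · exact Or.inr ⟨a, b, p, h1, h2, h3, by rw [h, hookEq_eq]⟩
    · rintro (⟨X, p, h⟩ | ⟨a, b, p, h1, h2, h3, h⟩)
      · refine Or.inl ⟨p, ?_⟩
        fin_cases X
        · left; rw [h, minor1_eq]; rfl
        · right; left; rw [h, minor2_eq]; rfl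
        · right; right; rw [h, minor3_eq]; rfl
      · exact Or.inr ⟨a, b, p, h1, h2, h3, by rw [h, hookEq_eq]⟩
  rw [hset]
  exact SecLow.lowest_degree2 r m1 m2 m3 f hf

/-- The case of `k` points on the triple product of copies of `ℙ^{k-1}`: the part of degree
`k + 1` of the ideal is spanned by the polynomials `hookEq a b p` alone. -/
theorem cube (k : ℕ) (f : Poly k k k) (hf : f.IsHomogeneous (k + 1)) :
    VanishesOnSec k f ↔ f ∈ Submodule.span ℂ
      {g | ∃ (a b : ℕ) (p : Fin (k + 1) → Fin k × Fin k × Fin k),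
        1 ≤ a ∧ 1 ≤ b ∧ a + b < k ∧ g = hookEq a b p} := by
  rw [result.2 k k k k f hf]
  constructor
  · intro h
    refine (Submodule.span_le.mpr ?_) h
    rintro g (⟨p, hg⟩ | hg)
    · have h0 : g = 0 := by
        rcases hg with hg | hg | hg
        · rw [hg, minor1_eq, SecLow.minorPoly_zero (Nat.lt_succ_self k)]
        · rw [hg, minor2_eq, SecLow.minorPoly_zero (Nat.lt_succ_self k)]
        · rw [hg, minor3_eq, SecLow.minorPoly_zero (Nat.lt_succ_self k)]
      rw [h0]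
      exact Submodule.zero_mem _
    · exact Submodule.subset_span hg
  · intro h
    exact Submodule.span_mono Set.subset_union_right h

end Pool.Agent.Results.MP_d70044_ag.LowestDegree
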